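import Pool.Agent.Y757.GM.Stm

/-! GM-FL: the Euler factors of the geometric means, limit `h → 0+`. -/

set_option autoImplicit false

namespace Pool.Agent.Y446.GM

open MeasureTheory Set Filter Topology Pool.Agent.Y757.LS Pool.Agent.Y757.EM Pool.Agent.Y757.GM ZU
open scoped ENNReal

noncomputable section

/-- averages of a function which is continuous on the right of zero -/
theorem avg_lim {f : ℝ → ℝ} (hf : Continuous fun s => f (max 0 s)) :
    Tendsto (fun h : ℝ => 1 / h * ∫ s in (0:ℝ)..h, f s) (𝓝[>] 0) (𝓝 (f 0)) := by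
  have h1 := (hf.integral_hasStrictDerivAt 0 0).hasDerivAt
  rw [hasDerivAt_iff_tendsto_slope] at h1
  have h2 := h1.mono_left (nhdsWithin_mono (0:ℝ) (fun x (hx : 0 < x) => hx.ne' : Ioi (0:ℝ) ⊆ {0}ᶜ))
  simp only [max_self] at h2
  refine h2.congr' ?_
  filter_upwards [self_mem_nhdsWithin] with h hh
  have hh' : 0 < h := hh
  rw [slope_def_field, intervalIntegral.integral_same, sub_zero, sub_zero, one_div, div_eq_inv_mul]
  congr 1
  refine intervalIntegral.integral_congr fun s hs => ?_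
  rw [uIcc_of_le hh'.le] at hs
  show f (max 0 s) = f s
  rw [max_eq_right hs.1]

/-- averages over squares -/
theorem avg2_lim {f : ℝ → ℝ} (hf : Continuous fun s => f (max 0 s)) :
    Tendsto (fun h : ℝ => 1 / h ^ 2 * ∫ x in (0:ℝ)..h, ∫ y in (0:ℝ)..h, f (x + y)) (𝓝[>] 0)
      (𝓝 (f 0)) := by
  rw [Metric.tendsto_nhdsWithin_nhds]
  intro ε hε
  have hc := (Metric.continuous_iff.1 hf) 0 (ε / 2) (by positivity)
  obtain ⟨δ, hδ, hc⟩ := hc
  refine ⟨δ / 2, by positivity, fun h hh hd => ?_⟩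
  have hh' : 0 < h := hh
  have hd' : h < δ / 2 := by
    rw [Real.dist_eq, sub_zero, abs_of_pos hh'] at hd
    exact hd
  set g : ℝ → ℝ := fun s => f (max 0 s) with hg
  have e1 : ∫ x in (0:ℝ)..h, ∫ y in (0:ℝ)..h, f (x + y) =
      ∫ x in (0:ℝ)..h, ∫ y in (0:ℝ)..h, g (x + y) := by
    refine intervalIntegral.integral_congr fun x hx => ?_
    refine intervalIntegral.integral_congr fun y hy => ?_
    rw [uIcc_of_le hh'.le] at hx hy
    show f (x + y) = f (max 0 (x + y))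
    rw [max_eq_right (add_nonneg hx.1 hy.1)]
  have hf0 : f 0 = g 0 := by rw [hg]; simp
  have hb : ∀ u : ℝ, 0 ≤ u → u < δ → |g u - g 0| ≤ ε / 2 := by
    intro u hu hu'
    have := hc u (by rw [Real.dist_eq, sub_zero, abs_of_nonneg hu]; exact hu')
    rw [Real.dist_eq] at this
    exact this.le
  have hgx : Continuous fun x : ℝ => ∫ y in (0:ℝ)..h, g (x + y) :=
    intervalIntegral.continuous_parametric_intervalIntegral_of_continuous'
      (f := fun x y => g (x + y)) (hf.comp (continuous_fst.add continuous_snd)) 0 h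
  have h2 : ∀ x ∈ Ioc (0:ℝ) h, |(∫ y in (0:ℝ)..h, g (x + y)) - h * g 0| ≤ ε / 2 * h := by
    intro x hx
    have e2 : (∫ y in (0:ℝ)..h, g (x + y)) - h * g 0 = ∫ y in (0:ℝ)..h, (g (x + y) - g 0) := by
      rw [intervalIntegral.integral_sub, intervalIntegral.integral_const]
      · simp
      · exact (hf.comp (continuous_const.add continuous_id)).intervalIntegrable _ _
      · exact intervalIntegrable_const
    rw [e2, ← Real.norm_eq_abs]
    refine (intervalIntegral.norm_integral_le_of_norm_le_const fun y hy => ?_).trans_eq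
      (by rw [sub_zero, abs_of_pos hh'])
    rw [uIoc_of_le hh'.le] at hy
    exact hb _ (by linarith [hx.1, hy.1]) (by linarith [hx.2, hy.2])
  have h3 : |(∫ x in (0:ℝ)..h, ∫ y in (0:ℝ)..h, g (x + y)) - h * (h * g 0)| ≤ ε / 2 * h * h := by
    have e3 : (∫ x in (0:ℝ)..h, ∫ y in (0:ℝ)..h, g (x + y)) - h * (h * g 0) =
        ∫ x in (0:ℝ)..h, ((∫ y in (0:ℝ)..h, g (x + y)) - h * g 0) := by
      rw [intervalIntegral.integral_sub, intervalIntegral.integral_const]
      · simp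
      · exact hgx.intervalIntegrable _ _
      · exact intervalIntegrable_const
    rw [e3, ← Real.norm_eq_abs]
    refine (intervalIntegral.norm_integral_le_of_norm_le_const fun x hx => ?_).trans_eq
      (by rw [sub_zero, abs_of_pos hh'])
    rw [uIoc_of_le hh'.le] at hx
    exact h2 x hx
  rw [e1, hf0, Real.dist_eq]
  have e4 : 1 / h ^ 2 * (∫ x in (0:ℝ)..h, ∫ y in (0:ℝ)..h, g (x + y)) - g 0 =
      1 / h ^ 2 * ((∫ x in (0:ℝ)..h, ∫ y in (0:ℝ)..h, g (x + y)) - h * (h * g 0)) := by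
    field_simp
  rw [e4, abs_mul, abs_of_pos (by positivity)]
  calc 1 / h ^ 2 * |(∫ x in (0:ℝ)..h, ∫ y in (0:ℝ)..h, g (x + y)) - h * (h * g 0)|
      ≤ 1 / h ^ 2 * (ε / 2 * h * h) := by gcongr
    _ = ε / 2 := by field_simp
    _ < ε := by linarith

/-! ### Parseval -/

theorem int_exp (n : ℤ) : ∫ θ in (0:ℝ)..1, Complex.exp (2 * Real.pi * Complex.I * n * θ) =
    if n = 0 then 1 else 0 := by
  split_ifs with hn
  · simp [hn]
  · have hc : (2 * Real.pi * Complex.I * n : ℂ) ≠ 0 := by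
      have : (n : ℂ) ≠ 0 := by exact_mod_cast hn
      have := Real.pi_pos.ne'
      simp_all
    have h := integral_exp_mul_complex (a := 0) (b := 1) hc
    rw [h]
    have e : Complex.exp (2 * Real.pi * Complex.I * n * (1:ℝ)) = 1 := by
      rw [Complex.exp_eq_one_iff]
      exact ⟨n, by push_cast; ring⟩
    rw [e]
    simp

theorem parseval {a : ℕ → ℝ} (h0 : ∀ n, 0 ≤ a n) (hs : Summable a) :
    HasSum (fun n => a n ^ 2)
      (∫ θ in (0:ℝ)..1, ‖∑' n : ℕ, (a n : ℂ) * Complex.exp (2 * Real.pi * Complex.I * n * θ)‖ ^ 2) := by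
  set e : ℤ → ℝ → ℂ := fun n θ => Complex.exp (2 * Real.pi * Complex.I * n * θ) with he
  have hen : ∀ n θ, ‖e n θ‖ = 1 := by
    intro n θ
    rw [he]
    dsimp only
    rw [show (2 * Real.pi * Complex.I * n * θ : ℂ) = ((2 * Real.pi * n * θ : ℝ) : ℂ) * Complex.I by
      push_cast; ring]
    exact Complex.norm_exp_ofReal_mul_I _
  have hsn : ∀ θ, Summable fun n : ℕ => ‖(a n : ℂ) * e n θ‖ := by
    intro θ
    refine hs.congr fun n => ?_
    rw [norm_mul, hen, mul_one, Complex.norm_real, Real.norm_of_nonneg (h0 n)]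
  set S : ℝ → ℂ := fun θ => ∑' n : ℕ, (a n : ℂ) * e n θ with hS
  have hprod : Summable fun q : ℕ × ℕ => a q.1 * a q.2 :=
    hs.mul_of_nonneg hs h0 h0
  have hSS : ∀ θ, HasSum (fun q : ℕ × ℕ => ((a q.1 * a q.2 : ℝ) : ℂ) * e ((q.1 : ℤ) - q.2) θ)
      ((‖S θ‖ ^ 2 : ℝ) : ℂ) := by
    intro θ
    have h1 : HasSum (fun n : ℕ => (a n : ℂ) * e n θ) (S θ) := (hsn θ).of_norm.hasSum
    have h2 : HasSum (fun n : ℕ => starRingEnd ℂ ((a n : ℂ) * e n θ)) (starRingEnd ℂ (S θ)) :=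
      (Complex.hasSum_conj' (f := fun n : ℕ => (a n : ℂ) * e n θ)).2 h1
    have h3 : Summable fun q : ℕ × ℕ => ((a q.1 : ℂ) * e q.1 θ) * starRingEnd ℂ ((a q.2 : ℂ) * e q.2 θ) := by
      refine Summable.of_norm_bounded hprod fun q => ?_
      rw [norm_mul, RCLike.norm_conj, norm_mul, norm_mul, hen, hen, mul_one, mul_one,
        Complex.norm_real, Complex.norm_real, Real.norm_of_nonneg (h0 _), Real.norm_of_nonneg (h0 _)]
    have h4 := h1.mul h2 h3
    have e0 : S θ * (starRingEnd ℂ) (S θ) = ((‖S θ‖ ^ 2 : ℝ) : ℂ) := by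
      rw [Complex.mul_conj, Complex.normSq_eq_norm_sq]
    rw [e0] at h4
    have e00 : (fun q : ℕ × ℕ => ((a q.1 * a q.2 : ℝ) : ℂ) * e ((q.1 : ℤ) - q.2) θ) =
        fun q : ℕ × ℕ => ((a q.1 : ℂ) * e q.1 θ) * starRingEnd ℂ ((a q.2 : ℂ) * e q.2 θ) := by
      ext q
      rw [map_mul, Complex.conj_ofReal, he]
      dsimp only
      rw [← Complex.exp_conj]
      have e1 : (starRingEnd ℂ) (2 * Real.pi * Complex.I * ((q.2 : ℤ) : ℂ) * θ) =
          -(2 * Real.pi * Complex.I * ((q.2 : ℤ) : ℂ) * θ) := by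
        have h2 : (starRingEnd ℂ) 2 = 2 := map_ofNat _ 2
        simp [h2]
      rw [e1]
      push_cast
      rw [show (a q.1 : ℂ) * Complex.exp (2 * Real.pi * Complex.I * (q.1 : ℂ) * θ) *
          ((a q.2 : ℂ) * Complex.exp (-(2 * Real.pi * Complex.I * (q.2 : ℂ) * θ))) =
          (a q.1 : ℂ) * (a q.2 : ℂ) * (Complex.exp (2 * Real.pi * Complex.I * (q.1 : ℂ) * θ) *
            Complex.exp (-(2 * Real.pi * Complex.I * (q.2 : ℂ) * θ))) by ring, ← Complex.exp_add]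
      congr 2
      ring
    rw [e00]
    exact h4
  have h5 : HasSum (fun q : ℕ × ℕ => ∫ θ in (0:ℝ)..1, ((a q.1 * a q.2 : ℝ) : ℂ) * e ((q.1 : ℤ) - q.2) θ)
      (∫ θ in (0:ℝ)..1, ((‖S θ‖ ^ 2 : ℝ) : ℂ)) := by
    refine intervalIntegral.hasSum_integral_of_dominated_convergence
      (fun q _ => a q.1 * a q.2) (fun q => ?_) (fun q => ?_) ?_ ?_ ?_
    · refine Continuous.aestronglyMeasurable ?_
      rw [he]
      fun_prop
    · refine Eventually.of_forall fun θ _ => ?_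
      rw [norm_mul, hen, mul_one, Complex.norm_real,
        Real.norm_of_nonneg (mul_nonneg (h0 _) (h0 _))]
    · exact Eventually.of_forall fun θ _ => hprod
    · exact intervalIntegrable_const
    · exact Eventually.of_forall fun θ _ => hSS θ
  have h6 : (fun q : ℕ × ℕ => ∫ θ in (0:ℝ)..1, ((a q.1 * a q.2 : ℝ) : ℂ) * e ((q.1 : ℤ) - q.2) θ) =
      fun q : ℕ × ℕ => ((if q.1 = q.2 then a q.1 * a q.2 else 0 : ℝ) : ℂ) := by
    ext q
    rw [intervalIntegral.integral_const_mul]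
    have := int_exp ((q.1 : ℤ) - q.2)
    rw [he]
    dsimp only
    rw [this]
    by_cases h : q.1 = q.2
    · simp [h]
    · have : ¬ ((q.1 : ℤ) - q.2 = 0) := by omega
      simp [h, this]
  rw [h6, intervalIntegral.integral_ofReal, Complex.hasSum_ofReal] at h5
  have hinj : Function.Injective fun n : ℕ => (n, n) := fun x y h => (Prod.mk.inj h).1
  have h7 := (hinj.hasSum_iff (f := fun q : ℕ × ℕ => (if q.1 = q.2 then a q.1 * a q.2 else 0 : ℝ))
    fun q hq => by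
      have : q.1 ≠ q.2 := fun h => hq ⟨q.1, Prod.ext rfl h⟩
      simp [this]).2 h5
  have e8 : (fun n => a n ^ 2) =
      (fun q : ℕ × ℕ => (if q.1 = q.2 then a q.1 * a q.2 else 0 : ℝ)) ∘ fun n : ℕ => (n, n) := by
    ext n
    simp [sq]
  rw [e8]
  exact h7

theorem norm_inv_pow {k : ℕ} (hk : 1 ≤ k) {z : ℂ} (hz : ‖z‖ < 1) :
    HasSum (fun m : ℕ => ((m + k - 1).choose m : ℂ) * z ^ m) (1 / (1 - z) ^ k) := by
  have h := hasSum_choose_mul_geometric_of_norm_lt_one (k - 1) hz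
  rw [show k - 1 + 1 = k by omega] at h
  have e : (fun m : ℕ => ((m + k - 1).choose m : ℂ) * z ^ m) =
      fun m : ℕ => ((m + (k - 1)).choose (k - 1) : ℂ) * z ^ m := by
    ext m
    rw [show m + k - 1 = m + (k - 1) by omega, Nat.choose_symm_add]
  rw [e]
  exact h

/-- `z = p^{-1/2} e^{-2πiθ}` -/
def zz (p : ℕ) (s θ : ℝ) : ℂ :=
  (((p : ℝ) ^ (-(1 / 2 + s)) : ℝ) : ℂ) * Complex.exp (((-(2 * Real.pi * θ) : ℝ) : ℂ) * Complex.I)

theorem ps_zz (p : ℕ) (s θ : ℝ) : ps p s θ = -Real.log ‖1 - zz p s θ‖ := rfl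

theorem zz_norm {p : ℕ} (hp : 2 ≤ p) (s θ : ℝ) : ‖zz p s θ‖ = rp p s := by
  unfold zz
  rw [norm_mul, Complex.norm_exp_ofReal_mul_I, mul_one, Complex.norm_real, Real.norm_eq_abs]
  exact abs_of_pos (rp_pos hp s)

theorem one_sub_ne {p : ℕ} (hp : 2 ≤ p) {s : ℝ} (hs : 0 ≤ s) (θ : ℝ) : 1 - zz p s θ ≠ 0 := by
  intro h
  have h1 : ‖zz p s θ‖ = 1 := by rw [← sub_eq_zero.1 h, norm_one]
  rw [zz_norm hp] at h1
  linarith [rp_le' hp hs]

theorem zz_cont {p : ℕ} (hp : 2 ≤ p) : Continuous fun q : ℝ × ℝ => zz p q.1 q.2 := by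
  have hp0 : (p : ℝ) ≠ 0 := by exact_mod_cast (by omega : p ≠ 0)
  unfold zz
  refine (Complex.continuous_ofReal.comp ?_).mul (by fun_prop)
  exact Continuous.rpow continuous_const (by fun_prop) fun _ => Or.inl hp0

theorem ps_cont {p : ℕ} (hp : 2 ≤ p) {α : Type*} [TopologicalSpace α] {u v : α → ℝ}
    (hu : Continuous u) (hv : Continuous v) : Continuous fun x => ps p (max 0 (u x)) (v x) := by
  have h0 : Continuous fun x : α => (max 0 (u x), v x) :=
    (continuous_const.max hu).prodMk hv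
  have h1 : Continuous fun x : α => zz p (max 0 (u x)) (v x) := (zz_cont hp).comp h0
  have h2 : (fun x : α => ps p (max 0 (u x)) (v x)) =
      fun x => -Real.log ‖1 - zz p (max 0 (u x)) (v x)‖ := by
    funext x
    rw [ps_zz]
  rw [h2]
  exact ((continuous_const.sub h1).norm.log fun q =>
    norm_ne_zero_iff.2 (one_sub_ne hp (le_max_left _ _) _)).neg

theorem exp_ps {p k : ℕ} (hp : 2 ≤ p) (hk : 1 ≤ k) (θ : ℝ) :
    Real.exp (2 * k * ps p 0 θ) =
      ‖∑' m : ℕ, ((((m + k - 1).choose m : ℝ) * rp p 0 ^ m : ℝ) : ℂ) *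
        Complex.exp (2 * Real.pi * Complex.I * m * (-θ : ℝ))‖ ^ 2 := by
  have hz : ‖zz p 0 θ‖ < 1 := by rw [zz_norm hp]; linarith [rp_zero_le hp]
  have h1 := (norm_inv_pow hk hz).tsum_eq
  have h2 : ∀ m : ℕ, ((((m + k - 1).choose m : ℝ) * rp p 0 ^ m : ℝ) : ℂ) *
        Complex.exp (2 * Real.pi * Complex.I * m * (-θ : ℝ)) =
      ((m + k - 1).choose m : ℂ) * zz p 0 θ ^ m := by
    intro m
    unfold zz rp
    rw [mul_pow, ← Complex.exp_nat_mul]
    push_cast
    rw [mul_assoc]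
    congr 3
    ring
  rw [tsum_congr h2, h1, norm_div, norm_one, norm_pow, ps_zz]
  have h3 : 0 < ‖1 - zz p 0 θ‖ := norm_pos_iff.2 (one_sub_ne hp le_rfl θ)
  rw [show 2 * (k : ℝ) * -Real.log ‖1 - zz p 0 θ‖ = Real.log ((1 / ‖1 - zz p 0 θ‖ ^ k) ^ 2) by
    rw [Real.log_pow, one_div, Real.log_inv, Real.log_pow]; push_cast; ring]
  exact Real.exp_log (by positivity)

theorem sum_eq {p k : ℕ} (hp : 2 ≤ p) (hk : 1 ≤ k) :
    ∫ θ in (0:ℝ)..1, Real.exp (2 * k * ps p 0 θ) =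
      ∑' m : ℕ, ((m + k - 1).choose m : ℝ) ^ 2 / (p : ℝ) ^ m := by
  have hp1 : (0:ℝ) < p := by exact_mod_cast (by omega : 0 < p)
  have hr : ‖((rp p 0 : ℝ) : ℂ)‖ < 1 := by
    rw [Complex.norm_real, Real.norm_of_nonneg (rp_pos hp 0).le]
    linarith [rp_zero_le hp]
  have hs : Summable fun m : ℕ => ((m + k - 1).choose m : ℝ) * rp p 0 ^ m := by
    have h := (norm_inv_pow hk hr).summable
    rw [← Complex.summable_ofReal]
    refine h.congr fun m => ?_
    push_cast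
    rfl
  have h1 := parseval (a := fun m : ℕ => ((m + k - 1).choose m : ℝ) * rp p 0 ^ m)
    (fun m => mul_nonneg (Nat.cast_nonneg _) (pow_nonneg (rp_pos hp 0).le m)) hs
  have h2 : (fun m : ℕ => (((m + k - 1).choose m : ℝ) * rp p 0 ^ m) ^ 2) =
      fun m : ℕ => ((m + k - 1).choose m : ℝ) ^ 2 / (p : ℝ) ^ m := by
    ext m
    have h3 : rp p 0 ^ 2 = 1 / (p : ℝ) := by
      unfold rp
      rw [← Real.rpow_natCast, ← Real.rpow_mul hp1.le]
      norm_num
      exact Real.rpow_neg_one _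
    rw [mul_pow, ← pow_mul, mul_comm m 2, pow_mul, h3, one_div, inv_pow, ← div_eq_mul_inv]
  rw [h2] at h1
  rw [h1.tsum_eq]
  have h4 : (fun θ : ℝ => Real.exp (2 * k * ps p 0 θ)) = fun θ : ℝ =>
      (fun φ : ℝ => ‖∑' m : ℕ, ((((m + k - 1).choose m : ℝ) * rp p 0 ^ m : ℝ) : ℂ) *
        Complex.exp (2 * Real.pi * Complex.I * m * φ)‖ ^ 2) (-θ) := by
    ext θ
    exact exp_ps hp hk θ
  rw [h4, intervalIntegral.integral_comp_neg
    (fun φ : ℝ => ‖∑' m : ℕ, ((((m + k - 1).choose m : ℝ) * rp p 0 ^ m : ℝ) : ℂ) *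
        Complex.exp (2 * Real.pi * Complex.I * m * φ)‖ ^ 2)]
  have hper : Function.Periodic (fun φ : ℝ =>
      ‖∑' m : ℕ, ((((m + k - 1).choose m : ℝ) * rp p 0 ^ m : ℝ) : ℂ) *
        Complex.exp (2 * Real.pi * Complex.I * m * φ)‖ ^ 2) 1 := by
    intro φ
    dsimp only
    congr 2
    refine tsum_congr fun m => ?_
    congr 1
    rw [show (2 * Real.pi * Complex.I * m * ((φ + 1 : ℝ) : ℂ) : ℂ) =
      2 * Real.pi * Complex.I * m * φ + m * (2 * Real.pi * Complex.I) by push_cast; ring,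
      Complex.exp_add, Complex.exp_nat_mul_two_pi_mul_I, mul_one]
  have h5 := hper.intervalIntegral_add_eq (-1) 0
  simp only [neg_add_cancel, zero_add] at h5
  simpa using h5

theorem avs_cont {p : ℕ} (hp : 2 ≤ p) (h : ℝ) :
    Continuous fun θ : ℝ => ∫ s in (0:ℝ)..h, ps p (max 0 s) θ := by
  have h1 : Continuous (Function.uncurry fun θ s : ℝ => ps p (max 0 s) θ) := by
    unfold Function.uncurry
    exact ps_cont hp continuous_snd continuous_fst
  exact intervalIntegral.continuous_parametric_intervalIntegral_of_continuous' h1 0 h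

theorem avs_eq (p : ℕ) {h : ℝ} (hh : 0 < h) (θ : ℝ) :
    ∫ s in (0:ℝ)..h, ps p s θ = ∫ s in (0:ℝ)..h, ps p (max 0 s) θ := by
  refine intervalIntegral.integral_congr fun s hs => ?_
  rw [uIcc_of_le hh.le] at hs
  show ps p s θ = ps p (max 0 s) θ
  rw [max_eq_right hs.1]

theorem avs_le {p : ℕ} (hp : 2 ≤ p) {h : ℝ} (hh : 0 < h) (θ : ℝ) :
    ∫ s in (0:ℝ)..h, ps p s θ ≤ 3 * h := by
  have h3 : ‖∫ s in (0:ℝ)..h, ps p s θ‖ ≤ 3 * |h - 0| := by
    refine intervalIntegral.norm_integral_le_of_norm_le_const fun s hs => ?_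
    rw [uIoc_of_le hh.le] at hs
    rw [Real.norm_eq_abs]
    have h4 := ps_bound hp hs.1.le θ
    have h5 := rp_le' hp hs.1.le
    linarith
  rw [sub_zero, abs_of_pos hh, Real.norm_eq_abs] at h3
  exact (le_abs_self _).trans h3

theorem avs_lim {p : ℕ} (hp : 2 ≤ p) (k : ℕ) (θ : ℝ) :
    Tendsto (fun h : ℝ => Real.exp (2 * k / h * ∫ s in (0:ℝ)..h, ps p s θ)) (𝓝[>] 0)
      (𝓝 (Real.exp (2 * k * ps p 0 θ))) := by
  have hc : Continuous fun s : ℝ => (fun s => ps p s θ) (max 0 s) :=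
    ps_cont hp continuous_id continuous_const
  have h5 := avg_lim (f := fun s => ps p s θ) hc
  have h6 := (Real.continuous_exp.tendsto _).comp (h5.const_mul (2 * (k : ℝ)))
  refine h6.congr fun h => ?_
  show Real.exp _ = Real.exp _
  congr 1
  ring

theorem F_lim {p k : ℕ} (hp : 2 ≤ p) (hk : 1 ≤ k) : Tendsto (fun h : ℝ => Fp k p h) (𝓝[>] 0)
      (𝓝 (∑' m : ℕ, ((m + k - 1).choose m : ℝ) ^ 2 / (p : ℝ) ^ m)) := by
  rw [← sum_eq hp hk]
  unfold Fp
  refine intervalIntegral.tendsto_integral_filter_of_dominated_convergence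
    (fun _ => Real.exp (2 * k * 3)) ?_ ?_ intervalIntegrable_const
    (Eventually.of_forall fun θ _ => avs_lim hp k θ)
  · filter_upwards [self_mem_nhdsWithin] with h hh
    have e1 : (fun θ : ℝ => Real.exp (2 * k / h * ∫ s in (0:ℝ)..h, ps p s θ)) =
        fun θ : ℝ => Real.exp (2 * k / h * ∫ s in (0:ℝ)..h, ps p (max 0 s) θ) := by
      ext θ
      rw [avs_eq p hh θ]
    rw [e1]
    exact ((continuous_const.mul (avs_cont hp h)).rexp).aestronglyMeasurable
  · filter_upwards [self_mem_nhdsWithin] with h hh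
    have hh' : 0 < h := hh
    refine Eventually.of_forall fun θ _ => ?_
    rw [Real.norm_eq_abs, Real.abs_exp]
    refine Real.exp_le_exp.2 ?_
    have h4 := avs_le hp hh' θ
    calc 2 * k / h * ∫ s in (0:ℝ)..h, ps p s θ ≤ 2 * k / h * (3 * h) :=
        mul_le_mul_of_nonneg_left h4 (by positivity)
      _ = 2 * k * 3 := by field_simp

theorem G_lim {p : ℕ} (hp : 2 ≤ p) :
    Tendsto (fun h : ℝ => Gp p h) (𝓝[>] 0) (𝓝 (-Real.log (1 - 1 / (p : ℝ)))) := by
  have hp1 : (0:ℝ) < p := by exact_mod_cast (by omega : 0 < p)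
  have hp2 : (2:ℝ) ≤ p := by exact_mod_cast hp
  have hc : Continuous fun s : ℝ => (fun u : ℝ => -Real.log (1 - (p : ℝ) ^ (-(1 + u)))) (max 0 s) := by
    refine Continuous.neg (Continuous.log ?_ fun s => ?_)
    · exact continuous_const.sub (Continuous.rpow continuous_const (by fun_prop)
        fun _ => Or.inl hp1.ne')
    · have h1 : (p : ℝ) ^ (-(1 + max 0 s)) < 1 :=
        Real.rpow_lt_one_of_one_lt_of_neg (by linarith) (by linarith [le_max_left 0 s])
      linarith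
  have h := avg2_lim (f := fun u : ℝ => -Real.log (1 - (p : ℝ) ^ (-(1 + u)))) hc
  have e : -Real.log (1 - (p : ℝ) ^ (-(1 + (0:ℝ)))) = -Real.log (1 - 1 / (p : ℝ)) := by
    rw [add_zero, Real.rpow_neg_one, one_div]
  rw [e] at h
  refine h.congr fun h => ?_
  unfold Gp
  simp only [add_assoc]

theorem t_FL : S_FL := by
  intro k hk p hpp
  have hp : 2 ≤ p := hpp.two_le
  have hp1 : (0:ℝ) < p := by exact_mod_cast (by omega : 0 < p)
  have hp2 : (2:ℝ) ≤ p := by exact_mod_cast hp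
  have hfin := (F_lim hp hk).mul ((Real.continuous_exp.tendsto _).comp
    ((G_lim hp).const_mul (-(k : ℝ) ^ 2)))
  have e : (∑' m : ℕ, ((m + k - 1).choose m : ℝ) ^ 2 / (p : ℝ) ^ m) *
      Real.exp (-(k : ℝ) ^ 2 * -Real.log (1 - 1 / (p : ℝ))) = Bp k p := by
    unfold Bp
    have h1 : 0 < 1 - 1 / (p : ℝ) := by
      rw [sub_pos, div_lt_one hp1]
      linarith
    rw [mul_comm]
    congr 1
    rw [show -(k : ℝ) ^ 2 * -Real.log (1 - 1 / (p : ℝ)) = Real.log ((1 - 1 / (p : ℝ)) ^ (k ^ 2)) by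
      rw [Real.log_pow]; push_cast; ring, Real.exp_log (by positivity)]
  rw [e] at hfin
  exact hfin

end

end Pool.Agent.Y446.GM
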